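import Pool.Agent.Helper53.AE.GoalsA

/-!
# Packet AE-FAR (MP_8130e1_an): isometries that are far out
-/

set_option autoImplicit false

open scoped ComplexOrder Topology
open Filter TopologicalSpace

namespace Pool.Agent.Helper89.AE.FAR

open Pool.Agent.Helper53.AE

/-! ## a polynomial that kills an element of a finite-dimensional subalgebra -/

theorem exists_poly {M : Type} [CStarAlgebra M] (F : NonUnitalStarSubalgebra ℂ M)
    [FiniteDimensional ℂ F] (x : M) (hx : x ∈ F) :
    ∃ P : Polynomial ℂ, P ≠ 0 ∧ Polynomial.aeval x P = 0 := by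
  have hpow : ∀ n : ℕ, x ^ (n + 1) ∈ F := by
    intro n
    induction n with
    | zero => simpa using hx
    | succ n ih =>
      rw [pow_succ]
      exact mul_mem ih hx
  have hnl : ¬ LinearIndependent ℂ (fun n : ℕ => (⟨x ^ (n + 1), hpow n⟩ : F)) :=
    Module.Finite.not_linearIndependent_of_infinite _
  rw [linearIndependent_iff] at hnl
  push Not at hnl
  obtain ⟨l, hl, hl0⟩ := hnl
  obtain ⟨n, hn⟩ := Finsupp.ne_iff.1 hl0
  refine ⟨∑ k ∈ l.support, Polynomial.C (l k) * Polynomial.X ^ (k + 1), ?_, ?_⟩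
  · intro h0
    have h1 := congrArg (fun p => Polynomial.coeff p (n + 1)) h0
    simp only [Polynomial.finsetSum_coeff, Polynomial.coeff_C_mul_X_pow,
      Polynomial.coeff_zero] at h1
    rw [Finset.sum_eq_single n] at h1
    · rw [if_pos rfl] at h1
      exact hn h1
    · intro k _ hk
      rw [if_neg]
      omega
    · intro hk
      rw [if_pos rfl]
      exact Finsupp.notMem_support_iff.1 hk
  · rw [map_sum]
    have h1 := congrArg (fun z : F => (z : M)) hl
    simp only [Finsupp.linearCombination_apply, Finsupp.sum] at h1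
    rw [AddSubmonoidClass.coe_finsetSum] at h1
    simp only [SetLike.val_smul, ZeroMemClass.coe_zero] at h1
    rw [← h1]
    refine Finset.sum_congr rfl fun k _ => ?_
    rw [map_mul, Polynomial.aeval_C, map_pow, Polynomial.aeval_X, Algebra.smul_def]

theorem exists_inv {M : Type} [CStarAlgebra M] [Nontrivial M] (F : NonUnitalStarSubalgebra ℂ M)
    [FiniteDimensional ℂ F] (x : M) (hx : x ∈ F) (η : ℝ) (hη : 0 < η) :
    ∃ y : M, IsUnit y ∧ ‖y - x‖ < η := by
  obtain ⟨P, hP0, hP⟩ := exists_poly F x hx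
  have hfin : {z : ℂ | P.IsRoot z}.Finite := Polynomial.finite_setOfPred_isRoot hP0
  have hinj : Function.Injective (fun t : ℝ => -(t : ℂ)) := fun a b h => by
    have h' : -(a : ℂ) = -(b : ℂ) := h
    exact_mod_cast neg_injective h'
  have hfin2 : {t : ℝ | P.IsRoot (-(t : ℂ))}.Finite :=
    hfin.preimage hinj.injOn
  obtain ⟨t, ht, htP⟩ := ((Set.Ioo_infinite hη).sdiff hfin2).nonempty
  have hns : -(t : ℂ) ∉ spectrum ℂ x := by
    intro hs
    have h1 : P.eval (-(t : ℂ)) ∈ spectrum ℂ (Polynomial.aeval x P) :=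
      spectrum.subset_polynomial_aeval x P ⟨_, hs, rfl⟩
    rw [hP, spectrum.zero_eq] at h1
    exact htP h1
  rw [spectrum.notMem_iff] at hns
  refine ⟨x + algebraMap ℂ M (t : ℂ), ?_, ?_⟩
  · have h2 : x + algebraMap ℂ M (t : ℂ) = -(algebraMap ℂ M (-(t : ℂ)) - x) := by
      rw [map_neg]
      abel
    rw [h2]
    exact hns.neg
  · rw [add_sub_cancel_left, norm_algebraMap', Complex.norm_real, Real.norm_eq_abs,
      abs_of_pos ht.1]
    exact ht.2

/-! ## polar decomposition of an invertible element -/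

theorem polar {M : Type} [CStarAlgebra M] (y : M) (hy : IsUnit y) :
    ∃ u a : M, star u * u = 1 ∧ u * star u = 1 ∧ u * a = y ∧ a * a = star y * y ∧
      ‖a‖ = ‖y‖ := by
  letI := CStarAlgebra.spectralOrder M
  haveI := CStarAlgebra.spectralOrderedRing M
  set a : M := CFC.sqrt (star y * y) with ha
  have haa : a * a = star y * y := CFC.sqrt_mul_sqrt_self _ (star_mul_self_nonneg y)
  have hsa : star a = a := (IsSelfAdjoint.of_nonneg (CFC.sqrt_nonneg _)).star_eq
  have hua : IsUnit a := by
    have h1 : IsUnit (a ^ 2) := by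
      rw [pow_two, haa]
      exact hy.star.mul hy
    exact (isUnit_pow_iff (two_ne_zero)).1 h1
  obtain ⟨b, hab⟩ := hua.exists_right_inv
  obtain ⟨b', hba'⟩ := hua.exists_left_inv
  have hbb : b' = b := by
    calc b' = b' * (a * b) := by rw [hab, mul_one]
      _ = b := by rw [← mul_assoc, hba', one_mul]
  rw [hbb] at hba'
  have hsb : star b = b := by
    have h1 : star b * a = 1 := by
      rw [← hsa, ← star_mul, hab, star_one]
    calc star b = star b * (a * b) := by rw [hab, mul_one]
      _ = b := by rw [← mul_assoc, h1, one_mul]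
  obtain ⟨c, hyc⟩ := hy.exists_right_inv
  have hcy : c * y = 1 := by
    obtain ⟨c', hc'⟩ := hy.exists_left_inv
    have : c' = c := by
      calc c' = c' * (y * c) := by rw [hyc, mul_one]
        _ = c := by rw [← mul_assoc, hc', one_mul]
    rw [← this]
    exact hc'
  have hbbc : b * b = c * star c := by
    have h1 : (a * a) * (c * star c) = 1 := by
      rw [haa, mul_assoc, ← mul_assoc y, hyc, one_mul, ← star_mul, hcy, star_one]
    calc b * b = b * b * ((a * a) * (c * star c)) := by rw [h1, mul_one]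
      _ = b * ((b * a) * a) * (c * star c) := by simp only [mul_assoc]
      _ = c * star c := by rw [hba', one_mul, hba', one_mul]
  refine ⟨y * b, a, ?_, ?_, ?_, haa, ?_⟩
  · rw [star_mul, hsb]
    calc b * star y * (y * b) = b * (star y * y) * b := by simp only [mul_assoc]
      _ = (b * a) * (a * b) := by rw [← haa]; simp only [mul_assoc]
      _ = 1 := by rw [hba', hab, one_mul]
  · rw [star_mul, hsb]
    calc y * b * (b * star y) = y * (b * b) * star y := by simp only [mul_assoc]
      _ = (y * c) * star (y * c) := by rw [hbbc, star_mul]; simp only [mul_assoc]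
      _ = 1 := by rw [hyc, star_one, one_mul]
  · rw [mul_assoc, hba', mul_one]
  · have h1 : ‖a‖ * ‖a‖ = ‖y‖ * ‖y‖ := by
      rw [← CStarRing.norm_star_mul_self (x := a), ← CStarRing.norm_star_mul_self (x := y), hsa,
        haa]
    nlinarith [norm_nonneg a, norm_nonneg y, mul_self_inj (norm_nonneg a) (norm_nonneg y)]

/-! ## an approximate unit -/

theorem approx {M : Type} [CStarAlgebra M] [Nontrivial M] (D : NonUnitalStarSubalgebra ℂ M)
    (hD : Idl D) (S : Finset M) (hS : ∀ x ∈ S, x ∈ D) (δ : ℝ) (hδ : 0 < δ) :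
    ∃ g ∈ D, star g = g ∧ ‖g‖ ≤ 1 ∧ ∀ d ∈ S, ‖(1 - g) * d‖ ≤ δ := by
  letI := CStarAlgebra.spectralOrder M
  haveI := CStarAlgebra.spectralOrderedRing M
  set h : M := ∑ d ∈ S, d * star d with hh
  have h0 : 0 ≤ h := Finset.sum_nonneg fun d _ => mul_star_self_nonneg d
  have hhD : h ∈ D := by
    refine sum_mem fun d hd => ?_
    exact (hD.2 (star d) d (hS d hd)).2
  have hsa : IsSelfAdjoint h := IsSelfAdjoint.of_nonneg h0
  set c : ℝ := δ ^ 2 with hc
  have hc0 : 0 < c := by positivity
  have hsp : ∀ t ∈ spectrum ℝ h, 0 ≤ t := fun t ht => spectrum_nonneg_of_nonneg h0 ht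
  have hne : ∀ t ∈ spectrum ℝ h, t + c ≠ 0 := fun t ht => by
    have := hsp t ht
    linarith
  have hcont1 : ContinuousOn (fun t : ℝ => 1 / (t + c)) (spectrum ℝ h) :=
    continuousOn_const.div (continuousOn_id.add continuousOn_const) hne
  have hcont2 : ContinuousOn (fun t : ℝ => c / (t + c)) (spectrum ℝ h) :=
    continuousOn_const.div (continuousOn_id.add continuousOn_const) hne
  set g : M := cfc (fun t : ℝ => t * (1 / (t + c))) h with hg
  have hgD : g ∈ D := by
    rw [hg, cfc_mul (fun t : ℝ => t) (fun t : ℝ => 1 / (t + c)) h continuousOn_id hcont1,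
      cfc_id' ℝ h hsa]
    exact (hD.2 _ h hhD).2
  have hgs : star g = g := (cfc_predicate _ h : IsSelfAdjoint g).star_eq
  have hg1 : ‖g‖ ≤ 1 := by
    refine norm_cfc_le zero_le_one fun t ht => ?_
    have ht0 := hsp t ht
    have hpos : 0 < t + c := by linarith
    rw [Real.norm_eq_abs, mul_one_div, abs_of_nonneg (by positivity), div_le_one hpos]
    linarith
  have hk : 1 - g = cfc (fun t : ℝ => c / (t + c)) h := by
    have e1 : (1 : M) = cfc (fun _ : ℝ => (1 : ℝ)) h := (cfc_const_one ℝ h).symm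
    rw [hg]
    nth_rewrite 1 [e1]
    rw [← cfc_sub (fun _ : ℝ => (1 : ℝ)) (fun t : ℝ => t * (1 / (t + c))) h continuousOn_const
      (continuousOn_id.mul hcont1)]
    refine cfc_congr fun t ht => ?_
    have := hne t ht
    field_simp
    ring
  refine ⟨g, hgD, hgs, hg1, fun d hd => ?_⟩
  set k : M := 1 - g with hkdef
  have hks : star k = k := by rw [hkdef, star_sub, star_one, hgs]
  have hle : k * (d * star d) * k ≤ k * h * k := by
    have h1 : d * star d ≤ h := by
      rw [hh]
      exact Finset.single_le_sum (f := fun d : M => d * star d)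
        (fun x _ => mul_star_self_nonneg x) hd
    have h2 := star_left_conjugate_le_conjugate h1 k
    rw [hks] at h2
    exact h2
  have hge : 0 ≤ k * (d * star d) * k := by
    have h2 := star_left_conjugate_nonneg (mul_star_self_nonneg d) k
    rw [hks] at h2
    exact h2
  have hn1 := CStarAlgebra.norm_le_norm_of_nonneg_of_le hge hle
  have hn2 : ‖k * h * k‖ ≤ c := by
    have e2 : k * h * k = cfc (fun t : ℝ => c / (t + c) * t * (c / (t + c))) h := by
      rw [hk, cfc_mul (fun t : ℝ => c / (t + c) * t) (fun t : ℝ => c / (t + c)) h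
        (hcont2.mul continuousOn_id) hcont2,
        cfc_mul (fun t : ℝ => c / (t + c)) (fun t : ℝ => t) h hcont2 continuousOn_id,
        cfc_id' ℝ h hsa]
    rw [e2]
    refine norm_cfc_le hc0.le fun t ht => ?_
    have ht0 := hsp t ht
    have hpos : 0 < t + c := by linarith
    rw [Real.norm_eq_abs, abs_of_nonneg (by positivity)]
    have e3 : c / (t + c) * t * (c / (t + c)) = c * (c * t) / (t + c) ^ 2 := by
      field_simp
    rw [e3, div_le_iff₀ (by positivity)]
    nlinarith [mul_nonneg hc0.le (sq_nonneg t), mul_nonneg hc0.le (sq_nonneg c),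
      mul_nonneg (mul_nonneg hc0.le hc0.le) ht0]
  have hn3 : ‖k * d‖ * ‖k * d‖ ≤ c := by
    rw [← CStarRing.norm_self_mul_star (x := k * d), star_mul, hks]
    have e4 : k * d * (star d * k) = k * (d * star d) * k := by simp only [mul_assoc]
    rw [e4]
    exact hn1.trans hn2
  rw [hc] at hn3
  exact abs_le_of_sq_le_sq' (by rw [pow_two]; exact hn3) hδ.le |>.2

theorem norm_le_one {M : Type} [CStarAlgebra M] [Nontrivial M] (s : M) (hs : star s * s = 1) :
    ‖s‖ ≤ 1 := by
  have h1 : ‖s‖ * ‖s‖ = 1 := by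
    rw [← CStarRing.norm_star_mul_self (x := s), hs, CStarRing.norm_one]
  nlinarith [norm_nonneg s]

theorem t : S_FAR := by
  intro M _ D hD hLAF s₁ s₂ h11 h22 h12 S ε hS hε
  rcases subsingleton_or_nontrivial M with hM | hM
  · refine ⟨1, Subsingleton.elim _ _, fun d _ => ?_⟩
    rw [Subsingleton.elim (star 1 * d) 0, norm_zero]
    exact hε
  set K : ℝ := 1 + ∑ d ∈ S, ‖d‖ with hK
  have hK1 : 1 ≤ K := by
    have : 0 ≤ ∑ d ∈ S, ‖d‖ := Finset.sum_nonneg fun d _ => norm_nonneg d
    linarith
  have hKd : ∀ d ∈ S, ‖d‖ ≤ K := fun d hd => by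
    have : ‖d‖ ≤ ∑ d ∈ S, ‖d‖ :=
      Finset.single_le_sum (f := fun d : M => ‖d‖) (fun x _ => norm_nonneg x) hd
    linarith
  obtain ⟨g, hgD, hgs, hg1, hgd⟩ := approx D hD S hS (ε / 8) (by positivity)
  set η : ℝ := min 1 (ε / (20 * K)) with hη
  have hη0 : 0 < η := by
    rw [hη]
    exact lt_min one_pos (by positivity)
  have hη1 : η ≤ 1 := min_le_left _ _
  have hη2 : η * K ≤ ε / 20 := by
    have h1 : η ≤ ε / (20 * K) := min_le_right _ _
    have h2 : η * K ≤ ε / (20 * K) * K := mul_le_mul_of_nonneg_right h1 (by linarith)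
    have h3 : ε / (20 * K) * K = ε / 20 := by
      field_simp
    linarith
  set v : M := s₁ * g with hv
  have hvD : v ∈ D := (hD.2 s₁ g hgD).1
  obtain ⟨F, hF, -, hFx⟩ := hLAF {v} (η / 2) (fun x hx => by
    rw [Finset.mem_singleton.1 hx]
    exact hvD) (by positivity)
  obtain ⟨x, hxF, hx⟩ := hFx v (Finset.mem_singleton_self v)
  haveI := hF
  obtain ⟨y, hy, hyx⟩ := exists_inv F x hxF (η / 2) (by positivity)
  have hyv : ‖y - v‖ ≤ η := by
    have h1 : y - v = (y - x) - (v - x) := by abel
    rw [h1]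
    refine (norm_sub_le _ _).trans ?_
    linarith
  obtain ⟨u, a, hu1, hu2, hua, haa, han⟩ := polar y hy
  have ns1 : ‖s₁‖ ≤ 1 := norm_le_one s₁ h11
  have ns2 : ‖star s₂‖ ≤ 1 := by
    rw [norm_star]
    exact norm_le_one s₂ h22
  have nu : ‖u‖ ≤ 1 := norm_le_one u hu1
  have nv : ‖v‖ ≤ 1 := by
    refine (norm_mul_le _ _).trans ?_
    nlinarith [norm_nonneg s₁, norm_nonneg g]
  have ny : ‖y‖ ≤ 2 := by
    have h1 : y = v + (y - v) := by abel
    rw [h1]
    refine (norm_add_le _ _).trans ?_
    linarith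
  have h21 : star s₂ * s₁ = 0 := by
    rw [← star_star s₁, ← star_mul, h12, star_zero]
  -- the estimate for g * g
  have hgg : g * g = star v * v := by
    rw [hv, star_mul, hgs]
    calc g * g = g * (star s₁ * s₁) * g := by rw [h11, mul_one]
      _ = g * star s₁ * (s₁ * g) := by simp only [mul_assoc]
  have hd1 : ‖g * g - star y * y‖ ≤ 3 * η := by
    have e1 : g * g - star y * y = star v * (v - y) + star (v - y) * y := by
      rw [hgg, star_sub]
      noncomm_ring
    rw [e1]
    refine (norm_add_le _ _).trans ?_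
    have h1 : ‖star v * (v - y)‖ ≤ 1 * η := by
      refine (norm_mul_le _ _).trans (mul_le_mul ?_ ?_ (norm_nonneg _) zero_le_one)
      · rw [norm_star]; exact nv
      · rw [norm_sub_rev]; exact hyv
    have h2 : ‖star (v - y) * y‖ ≤ η * 2 := by
      refine (norm_mul_le _ _).trans (mul_le_mul ?_ ny (norm_nonneg _) hη0.le)
      rw [norm_star, norm_sub_rev]
      exact hyv
    linarith
  have hd2 : ‖star s₂ * y‖ ≤ η := by
    have e1 : star s₂ * y = star s₂ * (y - v) := by
      rw [mul_sub, hv, ← mul_assoc, h21, zero_mul, sub_zero]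
    rw [e1]
    refine (norm_mul_le _ _).trans ?_
    nlinarith [norm_nonneg (star s₂), norm_nonneg (y - v)]
  have hd3 : ‖star s₂ * u * (g * g)‖ ≤ 5 * η := by
    have e1 : star s₂ * u * (g * g) =
        star s₂ * u * (g * g - star y * y) + star s₂ * y * a := by
      have e2 : star s₂ * u * (star y * y) = star s₂ * y * a := by
        rw [← haa]
        calc star s₂ * u * (a * a) = star s₂ * (u * a) * a := by simp only [mul_assoc]
          _ = star s₂ * y * a := by rw [hua]
      rw [mul_sub, e2]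
      abel
    rw [e1]
    refine (norm_add_le _ _).trans ?_
    have h1 : ‖star s₂ * u * (g * g - star y * y)‖ ≤ 1 * (3 * η) := by
      refine (norm_mul_le _ _).trans (mul_le_mul ?_ hd1 (norm_nonneg _) zero_le_one)
      refine (norm_mul_le _ _).trans ?_
      nlinarith [norm_nonneg (star s₂), norm_nonneg u]
    have h2 : ‖star s₂ * y * a‖ ≤ η * 2 := by
      refine (norm_mul_le _ _).trans (mul_le_mul hd2 ?_ (norm_nonneg _) hη0.le)
      rw [han]
      exact ny
    linarith
  refine ⟨star u * s₂, ?_, fun d hd => ?_⟩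
  · rw [star_mul, star_star]
    calc star s₂ * u * (star u * s₂) = star s₂ * (u * star u) * s₂ := by simp only [mul_assoc]
      _ = 1 := by rw [hu2, mul_one, h22]
  · rw [star_mul, star_star]
    have e1 : star s₂ * u * d = star s₂ * u * (g * g) * d +
        star s₂ * u * ((1 + g) * ((1 - g) * d)) := by
      have e2 : (1 + g) * ((1 - g) * d) = d - g * g * d := by
        noncomm_ring
      rw [e2, mul_sub]
      simp only [mul_assoc]
      abel
    rw [e1]
    have h1 : ‖star s₂ * u * (g * g) * d‖ ≤ 5 * η * K :=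
      (norm_mul_le _ _).trans (mul_le_mul hd3 (hKd d hd) (norm_nonneg _) (by positivity))
    have h2 : ‖star s₂ * u * ((1 + g) * ((1 - g) * d))‖ ≤ 1 * (2 * (ε / 8)) := by
      refine (norm_mul_le _ _).trans (mul_le_mul ?_ ?_ (norm_nonneg _) zero_le_one)
      · refine (norm_mul_le _ _).trans ?_
        nlinarith [norm_nonneg (star s₂), norm_nonneg u]
      · refine (norm_mul_le _ _).trans (mul_le_mul ?_ (hgd d hd) (norm_nonneg _) (by norm_num))
        refine (norm_add_le _ _).trans ?_
        rw [CStarRing.norm_one]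
        linarith
    refine lt_of_le_of_lt (norm_add_le _ _) ?_
    nlinarith

end Pool.Agent.Helper89.AE.FAR
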